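import Pool.Agent.Helper74.CO.Goals

/-!
Packet CO-GEX
-/

set_option autoImplicit false

namespace Pool.Agent.Helper91.CO

open Finset Pool.Agent.Helper74.CO

lemma two_of (D : ℤ) (hD : 0 < D) (U : Finset ℤ) (h1 : ∀ a ∈ U, ∀ b ∈ U, D ∣ a - b)
    (h2 : ∀ a ∈ U, ∀ b ∈ U, a - b < 2 * D) : #U ≤ 2 := by
  by_contra hc
  have hc : 2 < #U := by omega
  obtain ⟨a, ha, b, hb, c, hcU, hab, hac, hbc⟩ := Finset.two_lt_card.1 hc
  have key : ∀ x ∈ U, ∀ y ∈ U, x ≠ y → x - y = D ∨ x - y = -D := by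
    intro x hx y hy hxy
    obtain ⟨k, hk⟩ := h1 x hx y hy
    have e1 := h2 x hx y hy
    have e2 := h2 y hy x hx
    have hk2 : k < 2 := by
      by_contra h
      have : 2 ≤ k := by omega
      nlinarith
    have hk3 : -2 < k := by
      by_contra h
      have : k ≤ -2 := by omega
      nlinarith
    have hk0 : k ≠ 0 := by
      rintro rfl
      apply hxy
      linarith
    have : k = 1 ∨ k = -1 := by omega
    rcases this with rfl | rfl
    · left; linarith
    · right; linarith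
  have k1 := key a ha b hb hab
  have k2 := key a ha c hcU hac
  have k3 := key b hb c hcU hbc
  omega

lemma ag_mem {F : Type} [Field F] [Fintype F] (hI : IND) (α : F) (hα : Gen α)
    (hq : 3 ≤ Fintype.card F) (y : F) : 0 ≤ ag α y ∧ ag α y < 1 := by
  obtain ⟨h0, -, h2, -⟩ := hI F α hα hq
  have hq' : (3 : ℝ) ≤ Fintype.card F := by exact_mod_cast hq
  have hpos : (0 : ℝ) < (Fintype.card F : ℝ) - 1 := by linarith
  unfold ag
  refine ⟨by positivity, ?_⟩
  rw [div_lt_one hpos]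
  by_cases hy : y = 0
  · have : ind α y = 0 := by
      unfold ind
      have : {i : ℕ | α ^ i = y} = ∅ := by
        ext i
        simp only [Set.mem_ofPred_eq, Set.mem_empty_iff_false, iff_false]
        rw [hy]
        exact pow_ne_zero _ h0
      rw [this]
      simp
    rw [this]
    simpa using hpos
  · have := (h2 y hy).2
    have h3 : ((ind α y : ℤ) : ℝ) < (((Fintype.card F : ℤ) - 1 : ℤ) : ℝ) := by exact_mod_cast this
    push_cast at h3
    exact h3

lemma card_Xg {F : Type} [Field F] [Fintype F] [DecidableEq F] (e f : F) (he : e ≠ 0) :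
    (Fintype.card F : ℝ) - 5 ≤ #(Xg e f) := by
  have hsub : (univ : Finset F) \ Xg e f ⊆ {0, 1, 1 - f, e, e / (e + f)} := by
    intro x hx
    simp only [Xg, mem_sdiff, mem_univ, true_and, mem_filter, not_and_or, not_not] at hx
    simp only [mem_insert, mem_singleton]
    rcases hx with h | h | h | h | h
    · exact Or.inl h
    · exact Or.inr (Or.inl h)
    · exact Or.inr (Or.inr (Or.inl h))
    · exact Or.inr (Or.inr (Or.inr (Or.inl h)))
    · right; right; right; right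
      have hs : e + f ≠ 0 := by
        intro h0
        rw [h0, zero_mul] at h
        exact he h.symm
      field_simp
      rw [mul_comm]
      exact h
  have h1 := card_le_card hsub
  have h2 : #({0, 1, 1 - f, e, e / (e + f)} : Finset F) ≤ 5 := card_le_five
  have h3 := card_sdiff_add_card_eq_card (subset_univ (Xg e f))
  rw [card_univ] at h3
  have h4 : Fintype.card F ≤ #(Xg e f) + 5 := by omega
  have h5 : (Fintype.card F : ℝ) ≤ #(Xg e f) + 5 := by exact_mod_cast h4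
  linarith

theorem t_GEX (hB : BUMPS) (hGS : GSOL) (hGP : GP) (hGE : GE) (hI : IND) : GEX := by
  classical
  obtain ⟨K, κ, η₀, ε₀, hκ, hη₀, hε₀, hε₁, hb1, -, -⟩ := hB
  obtain ⟨q₁, hq₁⟩ := hGP K κ hκ
  obtain ⟨q₂, C₀, hq₂⟩ := hGE K κ hκ
  set ε₂ : ℝ := min ε₀ (1 / 10) with hε₂
  have hε₂0 : 0 < ε₂ := lt_min hε₀ (by norm_num)
  have hε₂a : ε₂ ≤ ε₀ := min_le_left _ _
  have hε₂b : ε₂ ≤ 1 / 10 := min_le_right _ _
  obtain ⟨N₃, hN₃⟩ := exists_nat_ge (4 / ε₂)
  refine ⟨η₀ / 2, ε₂ / 2, 4 * (C₀ + 2), max (max q₁ q₂) (max N₃ 10), by positivity, by positivity,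
    ?_⟩
  intro F _ _ α β S hN hα hβ hS
  have hN1 : q₁ ≤ Fintype.card F := le_trans (le_trans (le_max_left _ _) (le_max_left _ _)) hN
  have hN2 : q₂ ≤ Fintype.card F := le_trans (le_trans (le_max_right _ _) (le_max_left _ _)) hN
  have hN3 : N₃ ≤ Fintype.card F := le_trans (le_trans (le_max_left _ _) (le_max_right _ _)) hN
  have hN4 : 10 ≤ Fintype.card F := le_trans (le_trans (le_max_right _ _) (le_max_right _ _)) hN
  have hq3 : 3 ≤ Fintype.card F := by omega
  obtain ⟨hα0, -, -, hαe⟩ := hI F α hα hq3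
  obtain ⟨hβ0, -, -, hβe⟩ := hI F β hβ hq3
  set q : ℝ := (Fintype.card F : ℝ) with hqdef
  have hq10 : (10 : ℝ) ≤ q := by rw [hqdef]; exact_mod_cast hN4
  have hqN : 4 / ε₂ ≤ q := hN₃.trans (by rw [hqdef]; exact_mod_cast hN3)
  have hqε : 4 ≤ ε₂ * q := by
    rw [div_le_iff₀ hε₂0] at hqN
    linarith
  have hq1 : 0 < q - 1 := by linarith
  -- bounds for the coordinates
  have hlo : -ε₂ * (q - 1) ≤ -(ε₂ / 2) * q := by nlinarith
  have hhi : (1 + ε₂ / 2) * q ≤ (1 + ε₂) * (q - 1) := by nlinarith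
  set g : ℤ × ℤ → F × F := fun P => (α ^ P.1, β ^ P.2) with hg
  -- the exceptional pairs
  have hexc : #(S.image g) ≤ C₀ + 2 := by
    have hsub : S.image g ⊆ {((1 : F), (-1 : F)), ((-1 : F), (1 : F))} ∪
        (S.image g).filter (fun P => P.1 ≠ 0 ∧ P.2 ≠ 0 ∧ P.1 + P.2 ≠ 1 ∧ ¬ (P.1 = -1 ∧ P.2 = 1) ∧
          ¬ Eq3 (Xg P.1 P.2) (ag α) (fun x => ag α (Mg P.1 P.2 x)) (cg β) K κ) := by
      intro P hP
      obtain ⟨R, hR, rfl⟩ := mem_image.1 hP
      obtain ⟨hRT, hu1, hu2, hv1, hv2, hsol⟩ := hS R hR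
      by_cases c1 : g R = ((1 : F), (-1 : F))
      · rw [c1]; simp
      by_cases c2 : g R = ((-1 : F), (1 : F))
      · rw [c2]; simp
      apply mem_union_right
      have he : α ^ R.1 ≠ 0 := zpow_ne_zero _ hα0
      have hf : β ^ R.2 ≠ 0 := zpow_ne_zero _ hβ0
      have hef : α ^ R.1 + β ^ R.2 ≠ 1 := hRT
      have hc1 : ¬ (α ^ R.1 = 1 ∧ β ^ R.2 = -1) := by
        rintro ⟨h1, h2⟩
        exact c1 (Prod.ext h1 h2)
      have hc2 : ¬ (α ^ R.1 = -1 ∧ β ^ R.2 = 1) := by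
        rintro ⟨h1, h2⟩
        exact c2 (Prod.ext h1 h2)
      refine mem_filter.2 ⟨hP, he, hf, hef, hc2, ?_⟩
      intro hE3
      have hE2 := hq₁ F β (α ^ R.1) (β ^ R.2) hN1 hβ he hf hef hc1
      have hbb := hb1 F (Xg (α ^ R.1) (β ^ R.2)) (ag α)
        (fun x => ag α (Mg (α ^ R.1) (β ^ R.2) x)) (cg β)
        (fun x => cg β (Mg (α ^ R.1) (β ^ R.2) x)) ((R.1 : ℝ) / (q - 1)) ((R.2 : ℝ) / (q - 1))
        (fun x _ => ag_mem hI α hα hq3 x) (fun x _ => ag_mem hI α hα hq3 _)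
        (fun x _ => ag_mem hI β hβ hq3 (1 - x)) (fun x _ => ag_mem hI β hβ hq3 (1 - _))
        hE3 hE2 (by rw [le_div_iff₀ hq1]; nlinarith) (by rw [div_le_iff₀ hq1]; nlinarith)
        (by rw [le_div_iff₀ hq1]; nlinarith) (by rw [div_le_iff₀ hq1]; nlinarith)
      have hgs := hGS F α β R.1 R.2 hq3 hα hβ hef
      have hgs' : (#((Xg (α ^ R.1) (β ^ R.2)).filter (fun x =>
        (0 ≤ ag α x + ag α (Mg (α ^ R.1) (β ^ R.2) x) - R.1 / (q - 1) ∧
          ag α x + ag α (Mg (α ^ R.1) (β ^ R.2) x) - R.1 / (q - 1) < 1) ∧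
        (0 ≤ cg β x + cg β (Mg (α ^ R.1) (β ^ R.2) x) - R.2 / (q - 1) ∧
          cg β x + cg β (Mg (α ^ R.1) (β ^ R.2) x) - R.2 / (q - 1) < 1))) : ℝ) ≤
        #(sols (Ga α β) R) := Nat.cast_le.2 hgs
      have hX := card_Xg (α ^ R.1) (β ^ R.2) he
      have : η₀ * (q - 5) ≤ η₀ * #(Xg (α ^ R.1) (β ^ R.2)) :=
        mul_le_mul_of_nonneg_left hX hη₀.le
      have h7 : η₀ * (q - 5) < η₀ / 2 * q := lt_of_le_of_lt (this.trans (hbb.trans hgs')) hsol
      nlinarith
    have h1 := card_le_card hsub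
    have h2 := card_union_le ({((1 : F), (-1 : F)), ((-1 : F), (1 : F))} : Finset (F × F))
      ((S.image g).filter (fun P => P.1 ≠ 0 ∧ P.2 ≠ 0 ∧ P.1 + P.2 ≠ 1 ∧ ¬ (P.1 = -1 ∧ P.2 = 1) ∧
          ¬ Eq3 (Xg P.1 P.2) (ag α) (fun x => ag α (Mg P.1 P.2 x)) (cg β) K κ))
    have h3 : #({((1 : F), (-1 : F)), ((-1 : F), (1 : F))} : Finset (F × F)) ≤ 2 := card_le_two
    have h4 := hq₂ F α β ((S.image g).filter (fun P => P.1 ≠ 0 ∧ P.2 ≠ 0 ∧ P.1 + P.2 ≠ 1 ∧
      ¬ (P.1 = -1 ∧ P.2 = 1) ∧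
          ¬ Eq3 (Xg P.1 P.2) (ag α) (fun x => ag α (Mg P.1 P.2 x)) (cg β) K κ)) hN2 hα hβ
      (fun P hP => (mem_filter.1 hP).2)
    omega
  -- fibres
  have hfib : ∀ b ∈ S.image g, #(S.filter (fun P => g P = b)) ≤ 4 := by
    intro b _
    set D : ℤ := (Fintype.card F : ℤ) - 1 with hD
    have hD0 : 0 < D := by omega
    have hDr : (D : ℝ) = q - 1 := by rw [hD]; push_cast; rfl
    have hU : #((S.filter (fun P => g P = b)).image Prod.fst) ≤ 2 := by
      apply two_of D hD0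
      · intro x hx y hy
        obtain ⟨P, hP, rfl⟩ := mem_image.1 hx
        obtain ⟨R, hR, rfl⟩ := mem_image.1 hy
        have hP' := (mem_filter.1 hP).2
        have hR' := (mem_filter.1 hR).2
        rw [← hαe]
        have := hP'.trans hR'.symm
        exact congrArg Prod.fst this
      · intro x hx y hy
        obtain ⟨P, hP, rfl⟩ := mem_image.1 hx
        obtain ⟨R, hR, rfl⟩ := mem_image.1 hy
        obtain ⟨-, -, hu2, -⟩ := hS P (mem_filter.1 hP).1
        obtain ⟨-, hu1, -⟩ := hS R (mem_filter.1 hR).1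
        have : ((P.1 - R.1 : ℤ) : ℝ) < ((2 * D : ℤ) : ℝ) := by
          push_cast
          rw [hDr]
          nlinarith
        exact_mod_cast this
    have hV : #((S.filter (fun P => g P = b)).image Prod.snd) ≤ 2 := by
      apply two_of D hD0
      · intro x hx y hy
        obtain ⟨P, hP, rfl⟩ := mem_image.1 hx
        obtain ⟨R, hR, rfl⟩ := mem_image.1 hy
        have hP' := (mem_filter.1 hP).2
        have hR' := (mem_filter.1 hR).2
        rw [← hβe]
        have := hP'.trans hR'.symm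
        exact congrArg Prod.snd this
      · intro x hx y hy
        obtain ⟨P, hP, rfl⟩ := mem_image.1 hx
        obtain ⟨R, hR, rfl⟩ := mem_image.1 hy
        obtain ⟨-, -, -, -, hu2, -⟩ := hS P (mem_filter.1 hP).1
        obtain ⟨-, -, -, hu1, -⟩ := hS R (mem_filter.1 hR).1
        have : ((P.2 - R.2 : ℤ) : ℝ) < ((2 * D : ℤ) : ℝ) := by
          push_cast
          rw [hDr]
          nlinarith
        exact_mod_cast this
    have hsub : S.filter (fun P => g P = b) ⊆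
        ((S.filter (fun P => g P = b)).image Prod.fst) ×ˢ
          ((S.filter (fun P => g P = b)).image Prod.snd) := by
      intro P hP
      exact mem_product.2 ⟨mem_image_of_mem _ hP, mem_image_of_mem _ hP⟩
    calc #(S.filter (fun P => g P = b)) ≤ _ := card_le_card hsub
      _ = _ := card_product _ _
      _ ≤ 2 * 2 := Nat.mul_le_mul hU hV
  calc #S ≤ 4 * #(S.image g) := card_le_mul_card_image S 4 hfib
    _ ≤ 4 * (C₀ + 2) := Nat.mul_le_mul_left 4 hexc

end Pool.Agent.Helper91.CO
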